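import Pool.Agent.H76.GH.Targets

/-!
# Board ghw (MP_52e316_nt), row ITR: the iteration of the convolutions
-/

set_option autoImplicit false

namespace Pool.Agent.H19.GH

open MeasureTheory Pool.Agent.H34.GM Pool.Agent.H34.GZ Pool.Agent.H34.GU Pool.Agent.H34.GA
  Pool.Agent.H23.GB Pool.Agent.H76.GH

theorem pf_ITR (hCHI : T_CHI) (hCVA : T_CVA) (hCVB : T_CVB) (hCVW : T_CVW) (hCVF : T_CVF) :
    T_ITR := by
  obtain ⟨c, hc, hc2⟩ := hCHI
  refine ⟨c, hc, fun m K q hm hK => ?_⟩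
  obtain ⟨E, hE⟩ : ∃ E : ℝ, E = 2 * Real.exp (m / 2) * Real.exp (m + K) := ⟨_, rfl⟩
  have hE1 : 1 ≤ E := by
    rw [hE]
    have h1 : 1 ≤ Real.exp ((m : ℝ) / 2) := Real.one_le_exp (by positivity)
    have h2 : 1 ≤ Real.exp ((m : ℝ) + K) := Real.one_le_exp (by positivity)
    nlinarith
  refine ⟨E ^ q, one_le_pow₀ hE1, ?_⟩
  induction q with
  | zero =>
    intro a N d M B r0 lam ψ ψ' hN hd hM hr0 hW hψ' hs hb hl hF
    refine ⟨ψ, ψ', fun _ => 1, hW, hψ', ?_, ?_, hF, ?_, ?_, ?_⟩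
    · intro r hr hψ
      rw [pow_zero, one_mul]
      exact hs r hr hψ
    · intro r hr
      rw [pow_zero, one_mul]
      exact hb r hr
    · intro t
      rw [one_mul]
    · intro t
      rw [one_mul]
    · intro t
      simp
  | succ q ih =>
    intro a N d M B r0 lam ψ ψ' hN hd hM hr0 hW hψ' hs hb hl hF
    obtain ⟨φ, φ', ρ, h1, h2, h3, h4, h5, h6, h7, h8⟩ := ih (fun i => a i.castSucc) N d M B r0
      lam ψ ψ' hN hd hM hr0 hW hψ' hs hb hl hF
    obtain ⟨hh, hh2⟩ := hc2 m (a (Fin.last q)) hm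
    obtain ⟨h, hh0⟩ : ∃ h : ℝ → ℂ, h = ha m (a (Fin.last q)) := ⟨_, rfl⟩
    rw [← hh0] at hh hh2
    have hr : 1 ≤ 3 ^ q * r0 := one_le_mul_of_one_le_of_one_le (one_le_pow₀ (by norm_num)) hr0
    have hM' : 0 ≤ E ^ q * M := by positivity
    obtain ⟨hA1, hA2, hA3⟩ := hCVA m h _ hm hh φ (3 ^ q * r0) hr h1.cont h3
    obtain ⟨hB1, hB2, hB3⟩ := hCVB m K h _ hm hK hh φ' (E ^ q * M) d hM' hd h2 h4
    have hF2 := hCVF m K h _ hm hK hh N d (E ^ q * M) B (3 ^ q * r0) lam φ φ' hN hd hM' hr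
      h1.cont h2 h3 h4 hl h5
    have he : 3 * (3 ^ q * r0) = 3 ^ (q + 1) * r0 := by ring
    rw [he] at hA2
    refine ⟨cv m h φ, cw m h φ', fun t => ‖Lh m h (1 / 2 + t * Complex.I)‖ * ρ t,
      hCVW m h _ hm hh φ lam h1, hB1, hA2, ?_, hF2, ?_, ?_, ?_⟩
    · intro r hr
      have h9 := hB2 r hr
      have h10 : 2 * Real.exp (m / 2) * Real.exp (m + K) * (E ^ q * M) * min 1 ((r / d) ^ K) =
          E ^ (q + 1) * M * min 1 ((r / d) ^ K) := by
        rw [← hE]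
        ring
      rw [h10] at h9
      exact h9
    · intro t
      rw [hA3, norm_mul, h6, mul_assoc]
    · intro t
      rw [hB3, h7, mul_assoc]
    · intro t
      obtain ⟨h9, h10, h11⟩ := h8 t
      obtain ⟨h12, h13⟩ := hh2 t
      refine ⟨by positivity, ?_, ?_⟩
      · rw [Fin.prod_univ_castSucc, Fin.prod_univ_castSucc]
        calc _ = (c ^ q * ∏ i : Fin q, min 1 ‖(1 / 2 + t * Complex.I : ℂ) - a i.castSucc‖) *
              (c * min 1 ‖(1 / 2 + t * Complex.I : ℂ) - a (Fin.last q)‖) := by ring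
          _ ≤ (ρ t * ∏ i : Fin q, ‖(1 / 2 + t * Complex.I : ℂ) - a i.castSucc‖) *
              (‖Lh m h (1 / 2 + t * Complex.I)‖ *
                ‖(1 / 2 + t * Complex.I : ℂ) - a (Fin.last q)‖) :=
            mul_le_mul h10 h12 (by positivity) (by positivity)
          _ = _ := by ring
      · rw [Fin.prod_univ_castSucc]
        calc _ = (ρ t * ∏ i : Fin q, ‖(1 / 2 + t * Complex.I : ℂ) - a i.castSucc‖) *
              (‖Lh m h (1 / 2 + t * Complex.I)‖ *
                ‖(1 / 2 + t * Complex.I : ℂ) - a (Fin.last q)‖) := by ring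
          _ ≤ 2 ^ q * 2 := mul_le_mul h11 h13 (by positivity) (by positivity)
          _ = _ := by ring

end Pool.Agent.H19.GH
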